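import Pool.Agent.Q183.UH.APts

/-!
A nonconstant rational curve carries an injective family of points indexed by the integers which
satisfies linear recurrences with constant coefficients.
-/

set_option autoImplicit false

namespace Pool.Agent.Q195.UT

open MvPolynomial Pool.Agent.Q183.UH Pool.Agent.Q183.RS
open scoped LinearAlgebra.Projectivization

variable {N : ℕ}

/-- The points `q (2 ^ t τ)`, `t` an integer, over the field of rational functions in `τ`. -/
theorem inj_seq {K E : Type} [Field K] [Field E] [CharZero E] [Algebra K E]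
    {FF : Set (MvPolynomial (Fin (N + 1)) K)}
    (hFF : ∀ F ∈ FF, ∃ e, F.IsHomogeneous e) {p : Fin (N + 1) → Polynomial E}
    (hp : ∀ F ∈ FF, aeval p F = 0)
    (hnc : ¬ ∀ i j m n, (p i).coeff m * (p j).coeff n = (p j).coeff m * (p i).coeff n) :
    ∃ (L : Type) (_ : Field L) (_ : Algebra K L) (R : ℕ) (P : ℤ → ℙ L (Fin (N + 1) → L)),
      Function.Injective P ∧ CRecPoints FF L R fun t : ℕ => P t := by
  classical
  have hp0 : p ≠ 0 := by
    rintro rfl
    apply hnc
    intro i j m n
    simp
  obtain ⟨g, q, h, hg, hq, hh⟩ := primitive_rep p hp0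
  have hqF : ∀ F ∈ FF, aeval q F = 0 := by
    intro F hF
    obtain ⟨e, he⟩ := hFF F hF
    have h1 := hp F hF
    have h2 : p = fun i => g * q i := funext hq
    rw [h2, aeval_mul_hom he] at h1
    exact (mul_eq_zero.1 h1).resolve_left (pow_ne_zero _ hg)
  -- values of `q` do not vanish
  have hval : ∀ z : E, ∃ i, (q i).eval z ≠ 0 := by
    intro z
    by_contra hcon
    push Not at hcon
    have h1 := congrArg (Polynomial.eval z) hh
    rw [Polynomial.eval_finsetSum, Polynomial.eval_one] at h1
    simp [Polynomial.eval_mul, hcon] at h1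
  -- `q` is not invariant under multiplication
  have hinv : ∀ k : ℕ, 0 < k → ¬ ∀ z : E, ∀ i j, (q i).eval z * (q j).eval ((2 : E) ^ k * z) =
      (q j).eval z * (q i).eval ((2 : E) ^ k * z) := by
    intro k hk hall
    have hm : ∀ m : ℕ, ∀ i j, (q i).eval 1 * (q j).eval ((2 : E) ^ (k * m)) =
        (q j).eval 1 * (q i).eval ((2 : E) ^ (k * m)) := by
      intro m
      induction m with
      | zero =>
        intro i j
        simp only [mul_zero, pow_zero]
        ring
      | succ m ih =>
        intro i j
        obtain ⟨l, hl⟩ := hval ((2 : E) ^ (k * m))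
        have h1 : (2 : E) ^ (k * (m + 1)) = 2 ^ k * 2 ^ (k * m) := by
          rw [← pow_add]
          congr 1
          ring
        rw [h1]
        have e1 := hall ((2 : E) ^ (k * m)) l j
        have e2 := hall ((2 : E) ^ (k * m)) l i
        have e3 := ih i l
        have e4 := ih j l
        have e5 := ih i j
        apply mul_left_cancel₀ hl
        linear_combination (q i).eval 1 * e1 - (q j).eval 1 * e2 +
          (q l).eval (2 ^ k * 2 ^ (k * m)) * e5
    have hpol : ∀ i j, q i * Polynomial.C ((q j).eval 1) = q j * Polynomial.C ((q i).eval 1) := by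
      intro i j
      rw [← sub_eq_zero]
      apply Polynomial.eq_zero_of_infinite_isRoot
      refine Set.Infinite.mono ?_ (Set.infinite_range_of_injective
        (f := fun m : ℕ => (2 : E) ^ (k * m)) ?_)
      · rintro _ ⟨m, rfl⟩
        change Polynomial.eval _ _ = 0
        rw [Polynomial.eval_sub, Polynomial.eval_mul, Polynomial.eval_mul, Polynomial.eval_C,
          Polynomial.eval_C]
        linear_combination -(hm m i j)
      · intro m m' h3
        have h5 : ((2 ^ (k * m) : ℕ) : E) = ((2 ^ (k * m') : ℕ) : E) := by
          push_cast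
          exact h3
        have h6 := Nat.pow_right_injective le_rfl (Nat.cast_injective h5)
        exact Nat.eq_of_mul_eq_mul_left hk h6
    obtain ⟨i0, j0, a, b, hab⟩ := nc_eval hnc
    obtain ⟨l, hl⟩ := hval 1
    apply hab
    have hev : ∀ i z, (q i).eval z * (q l).eval 1 = (q l).eval z * (q i).eval 1 := by
      intro i z
      have h1 := congrArg (Polynomial.eval z) (hpol i l)
      simpa only [Polynomial.eval_mul, Polynomial.eval_C] using h1
    have key : (q i0).eval a * (q j0).eval b = (q j0).eval a * (q i0).eval b := by
      apply mul_right_cancel₀ (mul_ne_zero hl hl)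
      calc (q i0).eval a * (q j0).eval b * ((q l).eval 1 * (q l).eval 1)
          = ((q i0).eval a * (q l).eval 1) * ((q j0).eval b * (q l).eval 1) := by ring
        _ = ((q l).eval a * (q i0).eval 1) * ((q l).eval b * (q j0).eval 1) := by rw [hev, hev]
        _ = ((q l).eval a * (q j0).eval 1) * ((q l).eval b * (q i0).eval 1) := by ring
        _ = ((q j0).eval a * (q l).eval 1) * ((q i0).eval b * (q l).eval 1) := by rw [hev, hev]
        _ = _ := by ring
    rw [hq i0, hq j0]
    simp only [Polynomial.eval_mul]
    linear_combination g.eval a * g.eval b * key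
  -- the field
  let L := RatFunc E
  have _ : IsScalarTower K E L := IsScalarTower.of_algebraMap_eq fun c => by
    rw [IsScalarTower.algebraMap_apply K (Polynomial E) L,
      IsScalarTower.algebraMap_apply E (Polynomial E) L]
    rfl
  let τ : L := RatFunc.X
  have h2L : (2 : E) ≠ 0 := two_ne_zero
  let x : ℤ → Fin (N + 1) → L := fun t i => Polynomial.aeval (algebraMap E L ((2 : E) ^ t) * τ) (q i)
  have hxc : ∀ t i, x t i = algebraMap (Polynomial E) L
      ((q i).comp (Polynomial.C ((2 : E) ^ t) * Polynomial.X)) := by
    intro t i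
    have h1 : algebraMap E L ((2 : E) ^ t) * τ =
        algebraMap (Polynomial E) L (Polynomial.C ((2 : E) ^ t) * Polynomial.X) := by
      rw [map_mul, RatFunc.algebraMap_X, RatFunc.algebraMap_C]
      rfl
    change Polynomial.aeval _ _ = _
    rw [h1, Polynomial.aeval_algebraMap_apply, Polynomial.comp_eq_aeval]
  have hne : ∀ t, x t ≠ 0 := by
    intro t h0
    have h1 := congrArg (Polynomial.aeval (algebraMap E L ((2 : E) ^ t) * τ)) hh
    rw [map_sum, map_one] at h1
    simp only [map_mul] at h1
    have h2 : ∀ i, Polynomial.aeval (algebraMap E L ((2 : E) ^ t) * τ) (q i) = 0 :=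
      fun i => congrFun h0 i
    rw [Finset.sum_eq_zero fun i _ => by rw [h2, mul_zero]] at h1
    exact zero_ne_one h1
  set n : ℕ := Finset.univ.sup (fun i => (q i).natDegree) + 1 with hn
  have hdeg : ∀ i, (q i).natDegree < n := by
    intro i
    have := Finset.le_sup (f := fun i => (q i).natDegree) (Finset.mem_univ i)
    omega
  refine ⟨L, inferInstance, inferInstance, n, fun t => Projectivization.mk L (x t) (hne t), ?_,
    fun t => x t, fun t => hne t, fun t => rfl, fun t F hF => ?_, fun j => ?_⟩
  · -- injectivity
    have main : ∀ s : ℤ, ∀ k : ℕ, 0 < k →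
        Projectivization.mk L (x s) (hne s) ≠ Projectivization.mk L (x (s + k)) (hne (s + k)) := by
      intro s k hk hst
      rw [Projectivization.mk_eq_mk_iff'] at hst
      obtain ⟨c, hc⟩ := hst
      apply hinv k hk
      intro z i j
      have e1 : ∀ i, x s i = c * x (s + k) i := fun i => (congrFun hc i).symm
      have e2 : x s i * x (s + k) j = x s j * x (s + k) i := by
        rw [e1 i, e1 j]
        ring
      rw [hxc, hxc, hxc, hxc, ← map_mul, ← map_mul] at e2
      have e3 := RatFunc.algebraMap_injective E e2
      have e4 := congrArg (Polynomial.eval ((2 : E) ^ (-s) * z)) e3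
      simp only [Polynomial.eval_mul, Polynomial.eval_comp, Polynomial.eval_C,
        Polynomial.eval_X] at e4
      have e5 : (2 : E) ^ s * (2 ^ (-s) * z) = z := by
        rw [← mul_assoc, ← zpow_add₀ h2L]
        simp
      have e6 : (2 : E) ^ (s + k) * (2 ^ (-s) * z) = 2 ^ k * z := by
        rw [← mul_assoc, ← zpow_add₀ h2L]
        have : s + (k : ℤ) + -s = k := by ring
        rw [this, zpow_natCast]
      rw [e5, e6] at e4
      exact e4
    intro s t hst
    by_contra hne'
    rcases lt_or_gt_of_ne hne' with h1 | h1
    · obtain ⟨k, hk⟩ := Int.eq_ofNat_of_zero_le (a := t - s) (by omega)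
      have h2 : t = s + k := by omega
      subst h2
      exact main s k (by omega) hst
    · obtain ⟨k, hk⟩ := Int.eq_ofNat_of_zero_le (a := s - t) (by omega)
      have h2 : s = t + k := by omega
      subst h2
      exact main t k (by omega) hst.symm
  · have h1 := comp_aeval_apply (f := q) ((Polynomial.aeval (algebraMap E L ((2 : E) ^ (t : ℤ)) * τ) :
      Polynomial E →ₐ[E] L).restrictScalars K) F
    rw [hqF F hF, map_zero] at h1
    exact h1.symm
  · have h4 : (fun t : ℕ => x t j) = fun t => ∑ l : Fin n,
        (algebraMap E L ((q j).coeff l) * τ ^ (l : ℕ)) * ((2 : L) ^ (l : ℕ)) ^ t := by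
      funext t
      change Polynomial.aeval _ _ = _
      rw [Polynomial.aeval_eq_sum_range' (hdeg j), Finset.sum_range]
      refine Finset.sum_congr rfl fun l _ => ?_
      rw [zpow_natCast, map_pow, Algebra.smul_def, mul_pow, ← pow_mul, ← pow_mul, mul_comm t]
      have : algebraMap E L 2 = 2 := map_ofNat _ 2
      rw [this]
      ring
    rw [h4]
    exact crec_expsum _ _

end Pool.Agent.Q195.UT
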